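import Pool.Agent.Helper20.Griff.Main
import Pool.Agent.Helper20.Griff.VolGlue
import Pool.Agent.Helper3.GriffCE.DetA1
import Pool.Agent.Helper75.GriffCE.Pos
import Pool.Agent.Helper65.Griff.Funct
import Pool.Agent.Helper57.GriffCE.K
import Pool.Agent.Helper50.GriffCE.E
import Pool.Agent.Helper17.GriffCE.Val
import Pool.Agent.Helper90.GriffCE.Eps
import Pool.Agent.Helper94.GriffDis.Wirt
import Pool.Agent.Helper94.GriffDis.Schur
import Pool.Agent.Helper32.Griff.B2
import Pool.Agent.Helper32.Griff.B4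
import Pool.Agent.Helper67.GriffCE.Ineq

/-!
Griffiths' conjecture on the positivity of the Schur forms of Griffiths-positive bundles is false.

The counterexample is the bundle `E = O(2)^12` on `ℙ^12` with the Hermitian metric `h = G(z)⁻¹`,
`G(z) = (|z₀|⁴ + ε |z₀|² |z'|² + K |z'|⁴) 1 + |z₀|² T(z' z'^*)`, where `T` is the positive map
`T(X) = diag (E(X₁₁) + E(X₂₂), tr(X₁₁) 1 - E(X₁₁) + E(X₂₂))`, `E(Y) = Y + J Yᵀ J⁻¹`, on `12 × 12`
matrices, `ε` is small and `K` is large. Its curvature at `[1 : 0 : … : 0]` is `T + ε tr`, and the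
coefficient of the volume form in `c_12(E,h)` at this point is `(2π)⁻¹²` times a number close to
`-341760`.
-/

open MvPolynomial Pool.Agent.Helper94.Griff Pool.Agent.Helper20.Griff
open scoped ContDiff ComplexOrder Matrix

namespace Pool.Agent.Results.MP_4f6c32_ag.Counterexample

/-- Griffiths' conjecture fails for `r = k = 12`, `P = c_12` and `X = ℙ^12`: there is a Hermitian
metric `h` on `E = O(2)^12` over `ℙ^12` (the bundle with transition functions `(z_j / z_i)²`) such
that `(E, h)` is Griffiths-positive, but at some point the form `c_12(E, h)` is a negative multiple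
of the volume form. -/
theorem result :
    (∃ E : HermitianBundle (projSpace 12) 12,
      (∀ (i j : Fin 13) (w : Fin 12 → ℂ),
        E.g i j w = ((i.insertNth (1 : ℂ) w : Fin 13 → ℂ) j ^ 2) • 1) ∧
      E.IsGriffithsPositive ∧
      ∃ i, ∃ w ∈ (projSpace 12).dom i, ∃ x : ℝ, x < 0 ∧
        volCoeff (chern (curvatureForm (curvature (E.H i) w)
          (fun p : Fin 12 => Pi.single p (1 : ℂ))) 12) = x) ∧
    ¬ GriffithsConjecture := by
  have hvol : StmtVol := vol Pool.Agent.Helper3.GriffCE.stmtDet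
    (Pool.Agent.Helper65.Griff.funct Pool.Agent.Helper3.GriffCE.stmtDet)
    (Pool.Agent.Helper17.GriffCE.val Pool.Agent.Helper57.GriffCE.stmtK
      Pool.Agent.Helper50.GriffCE.stmtE)
  have h := main Pool.Agent.Helper75.GriffCE.stmtPos (Pool.Agent.Helper90.GriffCE.eps hvol)
    Pool.Agent.Helper94.GriffDis.stmtCurv
    (Pool.Agent.Helper32.Griff.griff Pool.Agent.Helper94.GriffDis.stmtCurv)
    Pool.Agent.Helper67.GriffCE.stmtIneq Pool.Agent.Helper32.Griff.posDef
    Pool.Agent.Helper94.GriffDis.stmtSchur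
  refine ⟨?_, not_conjecture h⟩
  obtain ⟨E, h1, h2, -, i, w, hw, x, hx, hx1, -⟩ := h
  exact ⟨E, h1, h2, i, w, hw, x, hx, hx1⟩

end Pool.Agent.Results.MP_4f6c32_ag.Counterexample
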