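import Pool.Agent.Helper94.Griff.RankTwoFinal

/-!
Griffiths' question in rank two: every numerically positive polynomial in the Chern forms of a
Griffiths-positive Hermitian holomorphic vector bundle of rank 2 is a positive form, in every
degree.
-/

open MvPolynomial Pool.Agent.Helper94.Griff
open scoped ContDiff ComplexOrder

namespace Pool.Agent.Results.MP_4f6c32_ag.RankTwo

/-- Let `H` be the matrix, in a holomorphic frame over the open set `U` of `ℂ^n`, of a smooth
Hermitian metric on a holomorphic vector bundle of rank 2 whose Chern curvature is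
Griffiths-positive, and let `P = ∑_{lam ∈ Λ(k,2)} a_lam s_lam` with all `a_lam ≥ 0`, not all zero.
Then the form `P(c_1(E,h), c_2(E,h))` is positive: at every point `z` of `U` and for every
basis `s` of a `k`-dimensional subspace of the tangent space, its restriction to that subspace is
a strictly positive multiple of the volume form `∏_p (i dt_p ∧ dt̄_p)`. -/
theorem result {n k : ℕ} (hk : 1 ≤ k) (U : Set (Fin n → ℂ)) (hU : IsOpen U)
    (H : (Fin n → ℂ) → Matrix (Fin 2) (Fin 2) ℂ)
    (hsmooth : ∀ a b, ContDiffOn ℝ ∞ (fun z => H z a b) U)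
    (hmetric : ∀ z ∈ U, (H z).PosDef)
    (hpos : ∀ z ∈ U, GriffithsPositive H z)
    (a : (Fin k → Fin (2 + 1)) → ℚ) (ha : ∀ lam ∈ partitions k 2, 0 ≤ a lam)
    (ha' : ∃ lam ∈ partitions k 2, a lam ≠ 0) :
    ∀ z ∈ U, ∀ s : Fin k → Fin n → ℂ, LinearIndependent ℂ s →
      ∃ x : ℝ, 0 < x ∧
        volCoeff (aeval (fun i : Fin 2 => chern (curvatureForm (curvature H z) s) (i + 1))
          (∑ lam ∈ partitions k 2, C (a lam) * schur 2 lam)) = x := by
  intro z hz s hs
  exact sum_pos_aux (partitions k 2) (schur 2) _
    (fun lam hlam => rankTwo_aux (hmetric z hz) (hpos z hz) hs hlam) a ha ha'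

end Pool.Agent.Results.MP_4f6c32_ag.RankTwo
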